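import Mathlib

set_option autoImplicit false
open MeasureTheory Finset Filter Topology Real
open scoped ENNReal Nat

namespace Pool.Agent.H.MP_629fb1_pr

noncomputable def gam : Measure ℂ :=
  volume.withDensity (fun w => ENNReal.ofReal (Real.exp (-‖w‖ ^ 2) / π))

lemma gint (b : ℝ) (hb : 0 < b) :
    ∫⁻ w : ℂ, ENNReal.ofReal (Real.exp (-b * ‖w‖ ^ 2)) = ENNReal.ofReal (π / b) := by
  have h := GaussianFourier.integral_rexp_neg_mul_sq_norm (V := ℂ) hb
  rw [Complex.finrank_real_complex] at h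
  norm_num at h
  have hi : Integrable (fun w : ℂ => Real.exp (-b * ‖w‖ ^ 2)) := by
    by_contra hc
    have := integral_undef hc
    simp only [neg_mul] at this
    rw [this] at h
    have : 0 < π / b := by positivity
    linarith
  rw [← ofReal_integral_eq_lintegral_ofReal hi (ae_of_all _ fun w => (Real.exp_pos _).le)]
  simp only [neg_mul]; rw [h]

instance gam_prob : IsProbabilityMeasure gam := ⟨by
  rw [gam, withDensity_apply _ MeasurableSet.univ, Measure.restrict_univ]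
  have : ∀ w : ℂ, ENNReal.ofReal (Real.exp (-‖w‖ ^ 2) / π) =
      ENNReal.ofReal (1 / π) * ENNReal.ofReal (Real.exp (-1 * ‖w‖ ^ 2)) := fun w => by
    rw [← ENNReal.ofReal_mul (by positivity)]; congr 1; simp; ring
  simp only [this]
  rw [lintegral_const_mul _ (by fun_prop), gint 1 one_pos, ← ENNReal.ofReal_mul (by positivity)]
  have := Real.pi_pos
  rw [show 1 / π * (π / 1) = 1 by field_simp]; simp⟩

lemma gam_ball (c : ℂ) (hc : ‖c‖ ≤ 1) (t : ℝ) (ht : 0 ≤ t) (ht1 : t ≤ 1) :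
    ENNReal.ofReal (t ^ 2 * Real.exp (-4)) ≤ gam (Metric.closedBall c t) := by
  rw [gam, withDensity_apply _ Metric.isClosed_closedBall.measurableSet]
  have h : ∫⁻ _ in Metric.closedBall c t, ENNReal.ofReal (Real.exp (-4) / π) ≤
      ∫⁻ w in Metric.closedBall c t, ENNReal.ofReal (Real.exp (-‖w‖ ^ 2) / π) := by
    refine setLIntegral_mono (by fun_prop) fun w hw => ?_
    have h1 : ‖w‖ ≤ 2 := by
      have := mem_closedBall_iff_norm.1 hw
      have := norm_add_le (w - c) c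
      rw [sub_add_cancel] at this; linarith
    have := Real.pi_pos
    gcongr
    nlinarith [norm_nonneg w]
  refine le_trans (le_of_eq ?_) h
  rw [setLIntegral_const, Complex.volume_closedBall, ← ENNReal.ofReal_pow ht,
    ← ENNReal.ofReal_coe_nnreal, NNReal.coe_real_pi, ← ENNReal.ofReal_mul (by positivity),
    ← ENNReal.ofReal_mul (by positivity)]
  congr 1
  have := Real.pi_pos
  field_simp

lemma gam_tail (c : ℂ) (hc : ‖c‖ ≤ 1) (n : ℕ) (hn : 6 ≤ n) :
    gam (Metric.closedBall c (2 ^ n))ᶜ ≤ ENNReal.ofReal (1 / 4 * (1 / 2) ^ n) := by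
  rw [gam, withDensity_apply _ Metric.isClosed_closedBall.measurableSet.compl]
  have hp := Real.pi_pos
  have h64 : (64:ℝ) ≤ 2 ^ n := by
    calc (64:ℝ) = 2 ^ 6 := by norm_num
      _ ≤ _ := by gcongr; norm_num
  have h : ∫⁻ w in (Metric.closedBall c (2 ^ n))ᶜ, ENNReal.ofReal (Real.exp (-‖w‖ ^ 2) / π) ≤
      ∫⁻ w in (Metric.closedBall c (2 ^ n))ᶜ, ENNReal.ofReal (1 / 8 * (1 / 2) ^ n / π) *
        ENNReal.ofReal (Real.exp (-(1 / 2) * ‖w‖ ^ 2)) := by
    refine setLIntegral_mono (by fun_prop) fun w hw => ?_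
    rw [← ENNReal.ofReal_mul (by positivity)]
    refine ENNReal.ofReal_le_ofReal ?_
    have h1 : 2 ^ n - 1 ≤ ‖w‖ := by
      have h1 : 2 ^ n < ‖w - c‖ := by simpa [mem_closedBall_iff_norm, dist_eq_norm] using hw
      have := norm_sub_le w c; linarith
    have h2 : Real.exp (-(1 / 2) * ‖w‖ ^ 2) ≤ 1 / 8 * (1 / 2) ^ n := by
      rw [neg_mul, Real.exp_neg, one_div_pow, show (1:ℝ) / 8 * (1 / 2 ^ n) = (8 * 2 ^ n)⁻¹ by
        field_simp]
      refine inv_anti₀ (by positivity) ?_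
      have := Real.add_one_le_exp (1 / 2 * ‖w‖ ^ 2)
      nlinarith
    rw [show -‖w‖ ^ 2 = -(1 / 2) * ‖w‖ ^ 2 + -(1 / 2) * ‖w‖ ^ 2 by ring, Real.exp_add,
      div_mul_eq_mul_div]
    gcongr
  refine h.trans ((setLIntegral_le_lintegral _ _).trans (le_of_eq ?_))
  rw [lintegral_const_mul _ (by fun_prop), gint _ (by norm_num),
    ← ENNReal.ofReal_mul (by positivity)]
  congr 1
  field_simp; ring

noncomputable def Fc (n : ℕ) : ℝ := if Even n then √(n !) / (2 ^ (n / 2) * (n / 2)!) else 0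

lemma fact2 (k : ℕ) : (2 * k)! ≤ (2 ^ k * k !) ^ 2 := by
  induction k with
  | zero => simp
  | succ k ih =>
    rw [show 2 * (k + 1) = 2 * k + 1 + 1 by ring, Nat.factorial_succ, Nat.factorial_succ,
      Nat.factorial_succ k]
    calc _ ≤ (2 * k + 1 + 1) * ((2 * k + 1 + 1) * (2 ^ k * k !) ^ 2) := by gcongr; omega
      _ = _ := by ring

lemma Fc_le (n : ℕ) : ‖(Fc n : ℂ)‖ ≤ 1 := by
  rw [Complex.norm_real, Fc]
  split_ifs with h
  · obtain ⟨k, rfl⟩ := h
    rw [← two_mul, Nat.mul_div_cancel_left _ two_pos, Real.norm_of_nonneg (by positivity),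
      div_le_one (by positivity), Real.sqrt_le_left (by positivity)]
    exact_mod_cast fact2 k
  · simp

lemma Fc_sum (z : ℂ) :
    HasSum (fun n => (Fc n : ℂ) * z ^ n / (√(n !) : ℝ)) (Complex.exp (z ^ 2 / 2)) := by
  have h := NormedSpace.expSeries_div_hasSum_exp (z ^ 2 / 2)
  rw [← Complex.exp_eq_exp_ℂ] at h
  have hi : Function.Injective (fun k : ℕ => 2 * k) := fun a b h => by simpa using h
  rw [← hi.hasSum_iff]
  · have e : ((fun n => (Fc n : ℂ) * z ^ n / (√(n !) : ℝ)) ∘ fun k : ℕ => 2 * k) =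
        fun k => (z ^ 2 / 2) ^ k / k ! := by
      funext k
      have h1 : ((√((2 * k)! : ℕ) : ℝ) : ℂ) ≠ 0 := by
        have : 0 < √(((2 * k)! : ℕ) : ℝ) := Real.sqrt_pos.2 (by positivity)
        exact_mod_cast this.ne'
      have h2 : ((k ! : ℕ) : ℂ) ≠ 0 := by exact_mod_cast (Nat.factorial_pos k).ne'
      simp only [Function.comp, Fc, even_two, Even.mul_right, if_true,
        Nat.mul_div_cancel_left _ two_pos]
      push_cast
      rw [div_pow, ← pow_mul]
      field_simp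
    rw [e]; exact h
  · intro n hn
    have : ¬ Even n := fun ⟨k, hk⟩ => hn ⟨k, by simp [hk, two_mul]⟩
    simp [Fc, this]

lemma term_le (x : ℝ) (hx : 0 ≤ x) (n : ℕ) : x ^ n / √(n !) ≤ Real.exp (x ^ 2 / 2) := by
  have h := Real.pow_div_factorial_le_exp (x ^ 2) (sq_nonneg x) n
  refine (sq_le_sq₀ (by positivity) (by positivity)).1 ?_
  rw [div_pow, Real.sq_sqrt (by positivity), ← Real.exp_nat_mul, ← pow_mul, mul_comm n 2, pow_mul]
  refine h.trans (le_of_eq ?_); congr 1; push_cast; ring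

noncomputable def f (ξ : ℕ → ℂ) (z : ℂ) : ℂ := ∑' n, ξ n * z ^ n / (√(n !) : ℝ)

lemma det (ξ : ℕ → ℂ) (z : ℂ) (N : ℕ) (t : ℝ) (ht : 0 ≤ t)
    (h : ∀ n, ‖ξ n - Fc n‖ ≤ if n < N then t else 2 ^ n) :
    ‖f ξ z - Complex.exp (z ^ 2 / 2)‖ ≤
      N * (t * Real.exp (‖z‖ ^ 2 / 2)) + (1 / 2) ^ N * Real.exp (32 * ‖z‖ ^ 2) * 2 := by
  have hb : HasSum (fun n => (if n ∈ range N then t * Real.exp (‖z‖ ^ 2 / 2) else 0) +
      (1 / 2) ^ N * Real.exp (32 * ‖z‖ ^ 2) * (1 / 2) ^ n)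
      (N * (t * Real.exp (‖z‖ ^ 2 / 2)) + (1 / 2) ^ N * Real.exp (32 * ‖z‖ ^ 2) * 2) := by
    refine HasSum.add ?_ (hasSum_geometric_two.mul_left _)
    have := hasSum_sum_of_ne_finset_zero (L := SummationFilter.unconditional ℕ) (s := range N)
      (f := fun n => if n ∈ range N then t * Real.exp (‖z‖ ^ 2 / 2) else 0)
      (fun b hb => if_neg hb)
    rwa [sum_congr rfl (fun b hb => if_pos hb), sum_const, card_range, nsmul_eq_mul] at this
  have hle : ∀ n, ‖(ξ n - Fc n) * z ^ n / (√(n !) : ℝ)‖ ≤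
      (if n ∈ range N then t * Real.exp (‖z‖ ^ 2 / 2) else 0) +
      (1 / 2) ^ N * Real.exp (32 * ‖z‖ ^ 2) * (1 / 2) ^ n := fun n => by
    rw [norm_div, norm_mul, norm_pow, Complex.norm_real, Real.norm_of_nonneg (Real.sqrt_nonneg _),
      mul_div_assoc]
    have h1 := h n
    simp only [mem_range]
    split_ifs at h1 ⊢ with hn
    · have := term_le ‖z‖ (norm_nonneg _) n
      refine le_trans ?_ (le_add_of_nonneg_right (by positivity))
      gcongr
    · have h2 := term_le (8 * ‖z‖) (by positivity) n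
      rw [zero_add]
      calc _ ≤ 2 ^ n * (‖z‖ ^ n / √(n !)) := by gcongr
        _ = (1 / 2) ^ n * ((8 * ‖z‖) ^ n / √(n !)) * (1 / 2) ^ n := by
          rw [mul_pow, show (8:ℝ) ^ n = 2 ^ n * 2 ^ n * 2 ^ n by rw [← mul_pow, ← mul_pow]; norm_num,
            one_div_pow]
          field_simp
        _ ≤ _ := by
          gcongr ?_ * ?_ * _
          · exact pow_le_pow_of_le_one (by norm_num) (by norm_num) (not_lt.1 hn)
          · refine h2.trans (le_of_eq ?_); congr 1; ring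
  have hs : Summable (fun n => (ξ n - Fc n) * z ^ n / (√(n !) : ℝ)) :=
    .of_norm_bounded hb.summable hle
  have e : f ξ z = ∑' n, (ξ n - Fc n) * z ^ n / (√(n !) : ℝ) + Complex.exp (z ^ 2 / 2) := by
    rw [f, ← (hs.hasSum.add (Fc_sum z)).tsum_eq]
    congr 1; funext n; ring
  rw [e, add_sub_cancel_right]
  exact tsum_of_norm_bounded hb hle

lemma nozero (ε r : ℝ) (hε1 : ε ^ 2 ≤ 1) (hr : 1 ≤ r) (N : ℕ) (hN : 140 * r ^ 2 ≤ N)
    (hN2 : N * Real.exp (-(ε ^ 2 * r ^ 2)) ≤ 1 / 2) (ξ : ℕ → ℂ)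
    (h : ∀ n, ‖ξ n - Fc n‖ ≤ if n < N then Real.exp (-(2 * ε ^ 2 * r ^ 2)) else 2 ^ n)
    (z : ℂ) (hz : |z.re| ≤ 1 ∧ |z.im| ≤ ε) : f ξ (r * z) ≠ 0 := by
  intro h0
  have h1 := det ξ (r * z) N _ (Real.exp_pos _).le h
  rw [h0, zero_sub, norm_neg, Complex.norm_exp] at h1
  have hx : z.re ^ 2 ≤ 1 := by rw [← sq_abs]; nlinarith [abs_nonneg z.re, hz.1]
  have hy : z.im ^ 2 ≤ ε ^ 2 := by rw [← sq_abs]; nlinarith [abs_nonneg z.im, hz.2]
  have hn : ‖(r:ℂ) * z‖ ^ 2 = r ^ 2 * (z.re ^ 2 + z.im ^ 2) := by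
    rw [Complex.sq_norm, Complex.normSq_apply]; simp; ring
  have hre : (((r:ℂ) * z) ^ 2 / 2).re = ‖(r:ℂ) * z‖ ^ 2 / 2 - r ^ 2 * z.im ^ 2 := by
    rw [hn]; simp [pow_two]; ring
  rw [hre] at h1
  have hr2 : 1 ≤ r ^ 2 := by nlinarith
  have hq : ‖(r:ℂ) * z‖ ^ 2 ≤ 2 * r ^ 2 := by rw [hn]; nlinarith
  have hq0 := sq_nonneg ‖(r:ℂ) * z‖
  generalize ‖(r:ℂ) * z‖ ^ 2 = q at h1 hq hq0
  set A := Real.exp (q / 2) with hA
  set B := Real.exp (-(ε ^ 2 * r ^ 2)) with hB
  have hA1 : 1 ≤ A := Real.one_le_exp (by positivity)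
  have hB0 : 0 < B := Real.exp_pos _
  have e1 : A * B ≤ Real.exp (q / 2 - r ^ 2 * z.im ^ 2) := by
    rw [hA, hB, ← Real.exp_add]; gcongr; nlinarith
  have e2 : Real.exp (-(2 * ε ^ 2 * r ^ 2)) = B * B := by
    rw [hB, ← Real.exp_add]; congr 1; ring
  have e3 : (1 / 2) ^ N * Real.exp (32 * q) * 2 ≤ B * (2 / 5) := by
    have a1 : ((1:ℝ) / 2) ^ N ≤ Real.exp (-(70 * r ^ 2)) := by
      have : (1:ℝ) / 2 ≤ Real.exp (-(1 / 2)) := by
        have := Real.add_one_le_exp (-(1 / 2) : ℝ); linarith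
      calc _ ≤ Real.exp (-(1 / 2)) ^ N := by gcongr
        _ ≤ _ := by rw [← Real.exp_nat_mul]; gcongr; linarith
    have a2 : Real.exp (-(70 * r ^ 2)) * Real.exp (32 * q) ≤ B * Real.exp (-5) := by
      rw [hB, ← Real.exp_add, ← Real.exp_add]; refine Real.exp_le_exp.2 ?_; nlinarith
    have a3 : Real.exp (-5) ≤ 1 / 5 := by
      rw [Real.exp_neg, one_div]
      refine inv_anti₀ (by norm_num) ?_
      have := Real.add_one_le_exp (5:ℝ); linarith
    have a4 : (1 / 2) ^ N * Real.exp (32 * q) ≤ B * (1 / 5) :=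
      calc _ ≤ Real.exp (-(70 * r ^ 2)) * Real.exp (32 * q) := by gcongr
        _ ≤ _ := a2.trans (by gcongr)
    linarith
  rw [e2] at h1
  have e4 : N * (B * B * A) ≤ 1 / 2 * (B * A) := by
    rw [show N * (B * B * A) = (N * B) * (B * A) by ring]; gcongr
  nlinarith

noncomputable def P : Measure (ℕ → ℂ) := Measure.infinitePi (fun _ : ℕ => gam)

instance : IsProbabilityMeasure P := by unfold P; infer_instance

lemma prob (N : ℕ) (hN : 6 ≤ N) (t : ℝ) (ht : 0 ≤ t) (ht1 : t ≤ 1) :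
    ENNReal.ofReal ((t ^ 2 * Real.exp (-4)) ^ N / 2) ≤
      P {ξ | ∀ n, ‖ξ n - Fc n‖ ≤ if n < N then t else 2 ^ n} := by
  set S : ℕ → Set ℂ := fun n => Metric.closedBall (Fc n : ℂ) t with hS
  set T : ℕ → Set ℂ := fun n => (Metric.closedBall (Fc n : ℂ) (2 ^ n))ᶜ with hT
  set A := Set.pi (range N : Set ℕ) S with hA
  have mS : ∀ n, MeasurableSet (S n) := fun n => Metric.isClosed_closedBall.measurableSet
  have mT : ∀ n, MeasurableSet (T n) := fun n => Metric.isClosed_closedBall.measurableSet.compl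
  have h1 : ENNReal.ofReal ((t ^ 2 * Real.exp (-4)) ^ N) ≤ P A := by
    rw [hA, P, Measure.infinitePi_pi _ (fun i _ => mS i), ENNReal.ofReal_pow (by positivity),
      ← card_range N, ← prod_const, card_range]
    exact prod_le_prod' fun i _ => gam_ball _ (Fc_le i) t ht ht1
  have h2 : ∀ n, P (A ∩ {ξ | N ≤ n ∧ ξ n ∈ T n}) ≤ P A * ENNReal.ofReal (1 / 4 * (1 / 2) ^ n) := by
    intro n
    by_cases hn : N ≤ n
    · have hn' : n ∉ range N := by simpa using hn
      have e : A ∩ {ξ | N ≤ n ∧ ξ n ∈ T n} =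
          Set.pi (insert n (range N) : Finset ℕ) (Function.update S n (T n)) := by
        ext ξ
        simp only [hA, Set.mem_inter_iff, Set.mem_pi, coe_insert, Set.mem_insert_iff, mem_coe,
          Set.mem_ofPred_eq, forall_eq_or_imp, Function.update_self, hn, true_and, and_comm]
        refine and_congr_right fun _ => forall₂_congr fun i hi => ?_
        rw [Function.update_of_ne (ne_of_mem_of_not_mem hi hn')]
      rw [e, hA, P, Measure.infinitePi_pi _ (fun i _ => mS i), Measure.infinitePi_pi,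
        prod_insert hn', Function.update_self, mul_comm,
        prod_congr rfl fun i hi => by rw [Function.update_of_ne (ne_of_mem_of_not_mem hi hn')]]
      · gcongr; exact gam_tail _ (Fc_le n) n (hN.trans hn)
      · intro i _
        by_cases hi : i = n
        · subst hi; simpa using mT i
        · rw [Function.update_of_ne hi]; exact mS i
    · simp [hn]
  have h3 : A ⊆ {ξ | ∀ n, ‖ξ n - Fc n‖ ≤ if n < N then t else 2 ^ n} ∪
      ⋃ n, A ∩ {ξ | N ≤ n ∧ ξ n ∈ T n} := by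
    intro ξ hξ
    by_contra hc
    simp only [Set.mem_union, Set.mem_iUnion, Set.mem_inter_iff, Set.mem_ofPred_eq, not_or,
      not_exists, not_and, not_forall] at hc
    obtain ⟨⟨n, hn⟩, hc⟩ := hc
    split_ifs at hn with h
    · exact hn (mem_closedBall_iff_norm.1 (hξ n (by simpa using h)))
    · exact hc n hξ (not_lt.1 h) fun h' => hn (mem_closedBall_iff_norm.1 h')
  have h4 : ∑' n, P A * ENNReal.ofReal (1 / 4 * (1 / 2) ^ n) = P A / 2 := by
    rw [ENNReal.tsum_mul_left, ← ENNReal.ofReal_tsum_of_nonneg (fun n => by positivity)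
      (summable_geometric_two.mul_left _), tsum_mul_left, tsum_geometric_two, div_eq_mul_inv,
      div_eq_mul_inv, show (1:ℝ) * 4⁻¹ * 2 = 2⁻¹ by norm_num, ENNReal.ofReal_inv_of_pos two_pos]
    simp
  have h5 := (measure_mono (μ := P) h3).trans ((measure_union_le _ _).trans
    (add_le_add_right ((measure_iUnion_le _).trans ((ENNReal.tsum_le_tsum h2).trans h4.le)) _))
  rw [ENNReal.ofReal_div_of_pos two_pos, ENNReal.ofReal_ofNat]
  refine le_trans (ENNReal.div_le_div_right h1 2) ?_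
  rw [← ENNReal.sub_half (measure_ne_top P A), tsub_le_iff_right]
  exact h5

lemma hole (ε : ℝ) (hε : 0 < ε) (hε1 : ε ^ 2 ≤ 1) : ∀ᶠ r : ℝ in atTop,
    ENNReal.ofReal (Real.exp (-(600 * ε ^ 2) * r ^ 4)) ≤
      P {ξ | ∀ z ∈ {z : ℂ | |z.re| ≤ 1 ∧ |z.im| ≤ ε}, f ξ (r * z) ≠ 0} := by
  have h := (Real.tendsto_pow_mul_exp_neg_atTop_nhds_zero 1).comp
    ((tendsto_pow_atTop (α := ℝ) two_ne_zero).const_mul_atTop (show 0 < ε ^ 2 by positivity))
  have h2 := h.eventually (gt_mem_nhds (show (0:ℝ) < ε ^ 2 / 282 by positivity))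
  filter_upwards [h2, eventually_ge_atTop 1, eventually_ge_atTop (16 / ε ^ 2)] with r h2 hr hr'
  simp only [Function.comp, pow_one] at h2
  have hr2 : 1 ≤ r ^ 2 := by nlinarith
  have he : 0 < ε ^ 2 := by positivity
  set N := ⌈140 * r ^ 2⌉₊ with hN
  have hN1 : 140 * r ^ 2 ≤ N := Nat.le_ceil _
  have hN2 : (N:ℝ) ≤ 141 * r ^ 2 := by
    have := Nat.ceil_lt_add_one (show 0 ≤ 140 * r ^ 2 by positivity); linarith
  have hN3 : 6 ≤ N := by
    have : (6:ℝ) ≤ N := by linarith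
    exact_mod_cast this
  have hN4 : N * Real.exp (-(ε ^ 2 * r ^ 2)) ≤ 1 / 2 := by
    have a := Real.exp_pos (-(ε ^ 2 * r ^ 2))
    have : r ^ 2 * Real.exp (-(ε ^ 2 * r ^ 2)) ≤ 1 / 282 := by nlinarith
    nlinarith
  refine le_trans ?_ ((prob N hN3 (Real.exp (-(2 * ε ^ 2 * r ^ 2))) (Real.exp_pos _).le
    (Real.exp_le_one_iff.2 (by nlinarith))).trans (measure_mono fun ξ hξ z hz =>
      nozero ε r hε1 hr N hN1 hN4 ξ hξ z hz))
  refine ENNReal.ofReal_le_ofReal ?_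
  rw [← Real.exp_nat_mul, ← Real.exp_add, ← Real.exp_nat_mul, le_div_iff₀ two_pos]
  have a1 : (2:ℝ) ≤ Real.exp 1 := by have := Real.add_one_le_exp (1:ℝ); linarith
  calc _ ≤ Real.exp (-(600 * ε ^ 2) * r ^ 4) * Real.exp 1 := by gcongr
    _ ≤ _ := by
      rw [← Real.exp_add]; gcongr
      push_cast
      have b1 : 16 ≤ ε ^ 2 * r ^ 2 := by
        rw [div_le_iff₀ he] at hr'; nlinarith
      have b2 : N * (4 * (ε ^ 2 * r ^ 2) + 4) ≤ 141 * r ^ 2 * (4 * (ε ^ 2 * r ^ 2) + 4) := by gcongr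
      nlinarith [mul_le_mul_of_nonneg_left b1 (sq_nonneg r)]

lemma vand (K : Set ℂ) (hK : ∀ z ∈ K, ‖z‖ ≤ 2) (hI : ∀ x : ℝ, 0 ≤ x → x ≤ 1 → (x:ℂ) ∈ K)
    (n : ℕ) (hn : 2 ≤ n) : Real.exp (-4) ≤
      (⨆ z : Fin n → K, ∏ j, ∏ i ∈ Iio j, ‖(z j : ℂ) - z i‖) ^ (2 / ((n:ℝ) * (n - 1))) := by
  have hn2 : (2:ℝ) ≤ n := by exact_mod_cast hn
  have hb : BddAbove (Set.range fun z : Fin n → K => ∏ j, ∏ i ∈ Iio j, ‖(z j : ℂ) - z i‖) := by
    refine ⟨∏ j : Fin n, ∏ _i ∈ Iio j, 4, ?_⟩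
    rintro _ ⟨z, rfl⟩
    refine prod_le_prod (fun j _ => by positivity) fun j _ =>
      prod_le_prod (fun i _ => by positivity) fun i _ => ?_
    have := norm_sub_le (z j : ℂ) (z i)
    linarith [hK _ (z j).2, hK _ (z i).2]
  let z : Fin n → K := fun j => ⟨((j:ℝ) / n : ℝ), hI _ (by positivity) (by
    rw [div_le_one (by linarith)]; exact_mod_cast j.2.le)⟩
  have h1 : Real.exp (-(n:ℝ)) ^ n ≤ ∏ j, ∏ i ∈ Iio j, ‖(z j : ℂ) - z i‖ := by
    have : Real.exp (-(n:ℝ)) ^ n = ∏ _j : Fin n, Real.exp (-(n:ℝ)) := by simp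
    rw [this]
    refine prod_le_prod (fun j _ => by positivity) fun j _ => ?_
    have e1 : ∏ i ∈ Iio j, ‖(z j : ℂ) - z i‖ = ∏ i ∈ range j, (((j - 1 - i : ℕ) : ℝ) + 1) / n := by
      rw [← Nat.Iio_eq_range, ← Fin.map_valEmbedding_Iio, prod_map]
      refine prod_congr rfl fun i hi => ?_
      have hij : (i:ℕ) < j := Fin.lt_def.1 (mem_Iio.1 hi)
      have hij' : ((i:ℕ):ℝ) < (j:ℕ) := by exact_mod_cast hij
      simp only [z, Fin.valEmbedding_apply]
      rw [← Complex.ofReal_sub, Complex.norm_real, ← sub_div,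
        Real.norm_of_nonneg (div_nonneg (by linarith) (by linarith)), Nat.cast_sub (by omega),
        Nat.cast_sub (by omega)]
      congr 1; push_cast; ring
    rw [e1, prod_range_reflect (fun i => (((i : ℕ) : ℝ) + 1) / n), prod_div_distrib, prod_const,
      card_range]
    have e2 : ∏ i ∈ range j, ((i:ℝ) + 1) = (j:ℕ)! := by
      exact_mod_cast prod_range_add_one_eq_factorial j
    have e3 := Real.pow_div_factorial_le_exp (n:ℝ) (by linarith) j
    rw [e2, Real.exp_neg, ← inv_div]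
    exact inv_anti₀ (by positivity) e3
  calc Real.exp (-4) ≤ (Real.exp (-(n:ℝ)) ^ n) ^ (2 / ((n:ℝ) * (n - 1))) := by
        rw [← Real.exp_nat_mul, ← Real.exp_mul]
        gcongr
        have : 0 < (n:ℝ) - 1 := by linarith
        rw [show (n:ℝ) * -n * (2 / (n * (n - 1))) = -(2 * n / (n - 1)) by field_simp, neg_le_neg_iff,
          div_le_iff₀ this]
        linarith
    _ ≤ _ := by
      gcongr
      · have : 0 < (n:ℝ) - 1 := by linarith
        positivity
      · exact h1.trans (le_ciSup hb z)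

end Pool.Agent.H.MP_629fb1_pr
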